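import Pool.Agent.Helper79.NC.Spec2

/-!
# Equations of the geodesics of a tube metric (module M3a of `MP_4787eb_gt`)
-/

set_option maxSynthPendingDepth 3

namespace Pool.Agent.Helper79.NC

open scoped ContDiff Topology
open Set Filter

namespace GeoAux

theorem dot_comm (a b : ℂ) : dot a b = dot b a := by
  unfold dot; ring

theorem hasDerivAt_fst {c : ℝ → E3} {v : E3} {t : ℝ} (h : HasDerivAt c v t) :
    HasDerivAt (fun t => (c t).1) v.1 t :=
  (ContinuousLinearMap.fst ℝ ℂ ℝ).hasFDerivAt.comp_hasDerivAt t h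

theorem hasDerivAt_snd {c : ℝ → E3} {v : E3} {t : ℝ} (h : HasDerivAt c v t) :
    HasDerivAt (fun t => (c t).2) v.2 t :=
  (ContinuousLinearMap.snd ℝ ℂ ℝ).hasFDerivAt.comp_hasDerivAt t h

theorem hasDerivAt_dot {a b : ℝ → ℂ} {a' b' : ℂ} {t : ℝ} (ha : HasDerivAt a a' t)
    (hb : HasDerivAt b b' t) :
    HasDerivAt (fun t => dot (a t) (b t)) (dot a' (b t) + dot (a t) b') t := by
  have h1 : HasDerivAt (fun t => (a t).re) a'.re t :=
    Complex.reCLM.hasFDerivAt.comp_hasDerivAt t ha
  have h2 : HasDerivAt (fun t => (a t).im) a'.im t :=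
    Complex.imCLM.hasFDerivAt.comp_hasDerivAt t ha
  have h3 : HasDerivAt (fun t => (b t).re) b'.re t :=
    Complex.reCLM.hasFDerivAt.comp_hasDerivAt t hb
  have h4 : HasDerivAt (fun t => (b t).im) b'.im t :=
    Complex.imCLM.hasFDerivAt.comp_hasDerivAt t hb
  have h5 := (h1.mul h3).add (h2.mul h4)
  have h6 : HasDerivAt (fun t => dot (a t) (b t))
      (a'.re * (b t).re + (a t).re * b'.re + (a'.im * (b t).im + (a t).im * b'.im)) t := h5
  refine h6.congr_deriv ?_
  unfold dot
  ring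

theorem radL_apply (w : ℂ) (e : E3) : radL w e = dot w e.1 := by
  simp only [radL, reL, imL, dot, add_apply, smul_apply,
    ContinuousLinearMap.comp_apply, ContinuousLinearMap.coe_fst', Complex.reCLM_apply,
    Complex.imCLM_apply, smul_eq_mul]

theorem hasFDerivAt_tube {F σ : ℂ → ℝ} (hF : Differentiable ℝ F) (hσ : Differentiable ℝ σ)
    (v x e : E3) :
    fderiv ℝ (fun x => tubeMetric F σ x v v) x e =
      fderiv ℝ F x.1 e.1 * v.2 ^ 2 - (fderiv ℝ σ x.1 e.1 * (dot x.1 v.1) ^ 2
        + 2 * σ x.1 * dot x.1 v.1 * dot e.1 v.1) := by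
  have h0 : (fun x => tubeMetric F σ x v v) = fun x : E3 =>
      F x.1 * v.2 ^ 2 + dot v.1 v.1 - σ x.1 * (radL v.1 x) ^ 2 := by
    funext x
    rw [tubeMetric_apply, radL_apply, dot_comm v.1 x.1]
    ring
  rw [h0]
  have h1 : HasFDerivAt (fun x : E3 => F x.1)
      ((fderiv ℝ F x.1).comp (ContinuousLinearMap.fst ℝ ℂ ℝ)) x :=
    (hF x.1).hasFDerivAt.comp x (ContinuousLinearMap.fst ℝ ℂ ℝ).hasFDerivAt
  have h2 : HasFDerivAt (fun x : E3 => σ x.1)
      ((fderiv ℝ σ x.1).comp (ContinuousLinearMap.fst ℝ ℂ ℝ)) x :=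
    (hσ x.1).hasFDerivAt.comp x (ContinuousLinearMap.fst ℝ ℂ ℝ).hasFDerivAt
  have h3 : HasFDerivAt (fun x : E3 => radL v.1 x) (radL v.1) x := (radL v.1).hasFDerivAt
  have h4 := ((h1.mul_const (v.2 ^ 2)).add_const (dot v.1 v.1)).sub (h2.mul (h3.pow 2))
  have h5 := h4.fderiv
  have h6 : fderiv ℝ (fun x : E3 => F x.1 * v.2 ^ 2 + dot v.1 v.1 - σ x.1 * (radL v.1 x) ^ 2) x
      = _ := h5
  rw [h6]
  simp only [sub_apply, add_apply, smul_apply, ContinuousLinearMap.comp_apply,
    ContinuousLinearMap.coe_fst', smul_eq_mul, radL_apply]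
  rw [dot_comm v.1 x.1, dot_comm v.1 e.1]
  simp
  ring

/-- The Euler-Lagrange equation of a geodesic which is contained in a region where the metric is
a tube metric. -/
theorem el_tube {F σ : ℂ → ℝ} (hF : Differentiable ℝ F) (hσ : Differentiable ℝ σ)
    {g : E3 → E3 →L[ℝ] E3 →L[ℝ] ℝ} {c : ℝ → E3} (hc : IsGeodesic g c) {t₀ : ℝ}
    (h : ∀ᶠ x in 𝓝 (c t₀), g x = tubeMetric F σ x) (e : E3) :
    HasDerivAt (fun τ => F (c τ).1 * (deriv c τ).2 * e.2 + dot (deriv c τ).1 e.1
        - σ (c τ).1 * dot (c τ).1 (deriv c τ).1 * dot (c τ).1 e.1)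
      (1 / 2 * (fderiv ℝ F (c t₀).1 e.1 * (deriv c t₀).2 ^ 2
        - (fderiv ℝ σ (c t₀).1 e.1 * (dot (c t₀).1 (deriv c t₀).1) ^ 2
          + 2 * σ (c t₀).1 * dot (c t₀).1 (deriv c t₀).1 * dot e.1 (deriv c t₀).1))) t₀ := by
  have hcd : Differentiable ℝ c := hc.smooth.differentiable (by norm_num)
  have hcd' : Differentiable ℝ (deriv c) :=
    (contDiff_infty_iff_deriv.mp hc.smooth).2.differentiable (by norm_num)
  have hc1 : HasDerivAt c (deriv c t₀) t₀ := (hcd t₀).hasDerivAt
  have hc2 : HasDerivAt (deriv c) (deriv (deriv c) t₀) t₀ := (hcd' t₀).hasDerivAt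
  -- the function is differentiable
  have hd : DifferentiableAt ℝ (fun τ => F (c τ).1 * (deriv c τ).2 * e.2 + dot (deriv c τ).1 e.1
        - σ (c τ).1 * dot (c τ).1 (deriv c τ).1 * dot (c τ).1 e.1) t₀ := by
    have a1 : HasDerivAt (fun τ => F (c τ).1) _ t₀ :=
      (hF (c t₀).1).hasFDerivAt.comp_hasDerivAt t₀ (hasDerivAt_fst hc1)
    have a2 : HasDerivAt (fun τ => σ (c τ).1) _ t₀ :=
      (hσ (c t₀).1).hasFDerivAt.comp_hasDerivAt t₀ (hasDerivAt_fst hc1)
    have a3 := hasDerivAt_snd hc2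
    have a4 := hasDerivAt_dot (hasDerivAt_fst hc2) (hasDerivAt_const t₀ e.1)
    have a5 := hasDerivAt_dot (hasDerivAt_fst hc1) (hasDerivAt_fst hc2)
    have a6 := hasDerivAt_dot (hasDerivAt_fst hc1) (hasDerivAt_const t₀ e.1)
    exact ((((a1.mul a3).mul_const e.2).add a4).sub ((a2.mul a5).mul a6)).differentiableAt
  have heq : (fun τ => F (c τ).1 * (deriv c τ).2 * e.2 + dot (deriv c τ).1 e.1
        - σ (c τ).1 * dot (c τ).1 (deriv c τ).1 * dot (c τ).1 e.1) =ᶠ[𝓝 t₀]
      fun τ => g (c τ) (deriv c τ) e := by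
    filter_upwards [(hcd t₀).continuousAt.eventually h] with τ hτ
    rw [hτ, tubeMetric_apply]
  have h1 := hd.hasDerivAt
  rw [heq.deriv_eq, hc.eq t₀ e] at h1
  have h2 : (fun x => g x (deriv c t₀) (deriv c t₀)) =ᶠ[𝓝 (c t₀)]
      fun x => tubeMetric F σ x (deriv c t₀) (deriv c t₀) := by
    filter_upwards [h] with x hx
    rw [hx]
  rw [h2.fderiv_eq, hasFDerivAt_tube hF hσ] at h1
  exact h1

end GeoAux

open GeoAux

theorem TubeData.differentiable_Φ (T : TubeData) : Differentiable ℝ T.Φ :=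
  T.hΦ.differentiable (by norm_num)

theorem TubeData.differentiable_σ (T : TubeData) : Differentiable ℝ T.σ :=
  T.hσ.differentiable (by norm_num)

theorem TubeData.hasFDerivAt_F (T : TubeData) (w : ℂ) :
    HasFDerivAt T.F ((2 * T.F w ^ 2) • fderiv ℝ T.Φ w) w := by
  have h1 : HasFDerivAt (fun w => T.κ - 2 * T.Φ w) (-((2 : ℝ) • fderiv ℝ T.Φ w)) w := by
    have := ((T.differentiable_Φ w).hasFDerivAt.const_mul (2 : ℝ)).const_sub T.κ
    exact this
  have h2 := (hasDerivAt_inv (T.κ_pos w).ne').comp_hasFDerivAt w h1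
  have h3 : T.F = (fun y => y⁻¹) ∘ fun w => T.κ - 2 * T.Φ w := by
    funext w
    simp [TubeData.F]
  rw [h3]
  refine h2.congr_fderiv ?_
  ext x
  simp only [smul_apply, neg_apply, smul_eq_mul, Function.comp]
  have := (T.κ_pos w).ne'
  field_simp

theorem TubeData.differentiable_F (T : TubeData) : Differentiable ℝ T.F :=
  fun w => (T.hasFDerivAt_F w).differentiableAt

theorem TubeData.fderiv_F (T : TubeData) (w e : ℂ) :
    fderiv ℝ T.F w e = 2 * T.F w ^ 2 * fderiv ℝ T.Φ w e := by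
  rw [(T.hasFDerivAt_F w).fderiv]
  simp

theorem TubeData.contDiff_F (T : TubeData) : ContDiff ℝ ∞ T.F := by
  unfold TubeData.F
  exact contDiff_const.div (contDiff_const.sub (contDiff_const.mul T.hΦ))
    fun w => (T.κ_pos w).ne'

theorem geoFlat : GeoFlat := by
  intro T g c hc t₀ h
  have hcd : Differentiable ℝ c := hc.smooth.differentiable (by norm_num)
  have hcd' : Differentiable ℝ (deriv c) :=
    (contDiff_infty_iff_deriv.mp hc.smooth).2.differentiable (by norm_num)
  have hc1 : HasDerivAt c (deriv c t₀) t₀ := (hcd t₀).hasDerivAt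
  have hc2 : HasDerivAt (deriv c) (deriv (deriv c) t₀) t₀ := (hcd' t₀).hasDerivAt
  refine ⟨?_, fun hu e => ?_⟩
  · have h1 := el_tube T.differentiable_F T.differentiable_σ hc h (0, 1)
    have h3 : (fun τ => T.F (c τ).1 * (deriv c τ).2 * ((0, 1) : E3).2
        + dot (deriv c τ).1 ((0, 1) : E3).1
        - T.σ (c τ).1 * dot (c τ).1 (deriv c τ).1 * dot (c τ).1 ((0, 1) : E3).1)
        = fun t => T.F (c t).1 * (deriv c t).2 := by
      funext τ
      simp [dot]
    rw [h3] at h1
    refine h1.congr_deriv ?_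
    simp [dot]
  · have h1 := el_tube T.differentiable_F T.differentiable_σ hc h (e, 0)
    have hopen : ∀ᶠ w in 𝓝 (c t₀).1, T.σ w = 0 := by
      have : IsOpen {w : ℂ | Complex.normSq w < T.u2'} :=
        isOpen_lt Complex.continuous_normSq continuous_const
      filter_upwards [this.mem_nhds hu] with w hw using T.σ_zero w hw
    have hσ0 : T.σ (c t₀).1 = 0 := hopen.self_of_nhds
    have hσ1 : fderiv ℝ T.σ (c t₀).1 = 0 := by
      have : T.σ =ᶠ[𝓝 (c t₀).1] fun _ => (0 : ℝ) := hopen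
      rw [this.fderiv_eq]
      simp
    have h6 : (fun τ => dot (deriv c τ).1 e) =ᶠ[𝓝 t₀]
        (fun τ => T.F (c τ).1 * (deriv c τ).2 * ((e, 0) : E3).2
        + dot (deriv c τ).1 ((e, 0) : E3).1
        - T.σ (c τ).1 * dot (c τ).1 (deriv c τ).1 * dot (c τ).1 ((e, 0) : E3).1) := by
      have hc3 : ContinuousAt (fun t => (c t).1) t₀ := (hasDerivAt_fst hc1).continuousAt
      filter_upwards [hc3.eventually hopen] with τ hτ
      simp [hτ]
    have h2 := h1.congr_of_eventuallyEq h6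
    have h3 := hasDerivAt_dot (hasDerivAt_fst hc2) (hasDerivAt_const t₀ e)
    have h4 := h3.unique h2
    have h5 : dot (deriv c t₀).1 0 = 0 := by simp [dot]
    rw [h5, add_zero] at h4
    rw [h4, hσ0, hσ1, T.fderiv_F]
    simp
    ring

theorem geoRad : GeoRad := by
  intro T g c hc t₀ h hu
  have hcd : Differentiable ℝ c := hc.smooth.differentiable (by norm_num)
  have hcd' : Differentiable ℝ (deriv c) :=
    (contDiff_infty_iff_deriv.mp hc.smooth).2.differentiable (by norm_num)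
  have hc1 : HasDerivAt c (deriv c t₀) t₀ := (hcd t₀).hasDerivAt
  have hc2 : HasDerivAt (deriv c) (deriv (deriv c) t₀) t₀ := (hcd' t₀).hasDerivAt
  set w := (c t₀).1 with hw
  set v := (deriv c t₀).1 with hv
  set a := (deriv (deriv c) t₀).1 with ha
  set θ := (deriv c t₀).2 with hθ
  set u := Complex.normSq w with hu'
  have hnd : ∀ z : ℂ, Complex.normSq z = dot z z := fun z => by
    rw [Complex.normSq_apply, dot]
  have hopen : ∀ᶠ z in 𝓝 w, T.u0 < Complex.normSq z := by
    have : IsOpen {w : ℂ | T.u0 < Complex.normSq w} :=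
      isOpen_lt continuous_const Complex.continuous_normSq
    exact this.mem_nhds hu
  have hS : HasDerivAt T.S (deriv T.S u) u := by
    have : DifferentiableAt ℝ T.S u :=
      (T.hS.differentiableOn (by norm_num)).differentiableAt (isOpen_Ioi.mem_nhds hu)
    exact this.hasDerivAt
  have hP : HasDerivAt T.P (deriv T.P u) u := by
    have : DifferentiableAt ℝ T.P u :=
      (T.hP.differentiableOn (by norm_num)).differentiableAt (isOpen_Ioi.mem_nhds hu)
    exact this.hasDerivAt
  have hns : ∀ e : ℂ, HasDerivAt (fun s : ℝ => Complex.normSq (w + s • e)) (2 * dot w e) 0 := by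
    intro e
    have h1 : HasDerivAt (fun s : ℝ => w + s • e) e 0 := by
      simpa using ((hasDerivAt_id (0 : ℝ)).smul_const e).const_add w
    have h2 := hasDerivAt_dot h1 h1
    have h3 : HasDerivAt (fun s : ℝ => Complex.normSq (w + s • e)) _ 0 :=
      h2.congr_of_eventuallyEq (Eventually.of_forall fun s => hnd _)
    refine h3.congr_deriv ?_
    simp [dot]
    ring
  have hline : ∀ (f : ℂ → ℝ) (f1 : ℝ → ℝ) (f' : ℝ), Differentiable ℝ f →
      (∀ z : ℂ, T.u0 < Complex.normSq z → f z = f1 (Complex.normSq z)) → HasDerivAt f1 f' u →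
      ∀ e, fderiv ℝ f w e = f' * (2 * dot w e) := by
    intro f f1 f' hf hff hf1 e
    have h1 : HasDerivAt (fun s : ℝ => w + s • e) e 0 := by
      simpa using ((hasDerivAt_id (0 : ℝ)).smul_const e).const_add w
    have h2 : HasDerivAt (fun s : ℝ => f (w + s • e)) (fderiv ℝ f w e) 0 := by
      have h3 : HasFDerivAt f (fderiv ℝ f w) (w + (0 : ℝ) • e) := by
        simpa using (hf w).hasFDerivAt
      exact h3.comp_hasDerivAt 0 h1
    have h4 : HasDerivAt (fun s : ℝ => f1 (Complex.normSq (w + s • e))) (f' * (2 * dot w e)) 0 := by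
      have h5 : HasDerivAt f1 f' (Complex.normSq (w + (0 : ℝ) • e)) := by simpa using hf1
      exact h5.comp 0 (hns e)
    refine h2.unique (h4.congr_of_eventuallyEq ?_)
    have h6 : Tendsto (fun s : ℝ => w + s • e) (𝓝 0) (𝓝 w) := by
      have := h1.continuousAt.tendsto
      simpa using this
    filter_upwards [h6.eventually hopen] with s hs using hff _ hs
  have hDσ : ∀ e, fderiv ℝ T.σ w e = deriv T.S u * (2 * dot w e) :=
    hline T.σ T.S _ T.differentiable_σ T.σ_eq hS
  have hDΦ : ∀ e, fderiv ℝ T.Φ w e = deriv T.P u * (2 * dot w e) :=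
    hline T.Φ T.P _ T.differentiable_Φ T.Φ_eq hP
  have hσw : T.σ w = T.S u := T.σ_eq w hu
  have hwt : HasDerivAt (fun t => (c t).1) v t₀ := hasDerivAt_fst hc1
  have hvt : HasDerivAt (fun t => (deriv c t).1) a t₀ := hasDerivAt_fst hc2
  have hσt : HasDerivAt (fun t => T.σ (c t).1) (deriv T.S u * (2 * dot w v)) t₀ := by
    have : HasDerivAt (fun t => T.σ (c t).1) (fderiv ℝ T.σ w v) t₀ :=
      (T.differentiable_σ w).hasFDerivAt.comp_hasDerivAt t₀ hwt
    rwa [hDσ] at this
  -- the pairing of `w''` with a vector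
  have key : ∀ e : ℂ, dot a e = (deriv T.S u * (dot w v) ^ 2
      + T.S u * (Complex.normSq v + dot w a) + 2 * deriv T.P u * (T.F w * θ) ^ 2) * dot w e := by
    intro e
    have h1 := el_tube T.differentiable_F T.differentiable_σ hc h (e, 0)
    simp only [mul_zero, zero_add] at h1
    have h2 := (hasDerivAt_dot hvt (hasDerivAt_const t₀ e)).sub
      ((hσt.mul (hasDerivAt_dot hwt hvt)).mul (hasDerivAt_dot hwt (hasDerivAt_const t₀ e)))
    have h3 := h2.unique h1
    simp only [← hw, ← hv, ← hθ] at h3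
    have h5 : ∀ z : ℂ, dot z 0 = 0 := fun z => by simp [dot]
    rw [hDσ, T.fderiv_F, hDΦ, h5, h5, hσw, ← hnd] at h3
    rw [dot_comm e v] at h3
    have h6 : ((fun t => T.σ (c t).1) * fun t => dot (c t).1 (deriv c t).1) t₀
        = T.S u * dot w v := by
      rw [← hσw]
      rfl
    rw [h6] at h3
    linear_combination h3
  have hself : dot w a = (deriv T.S u * (dot w v) ^ 2
      + T.S u * (Complex.normSq v + dot w a) + 2 * deriv T.P u * (T.F w * θ) ^ 2) * u := by
    have := key w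
    rwa [dot_comm a w, ← hnd] at this
  have hre : a.re = (deriv T.S u * (dot w v) ^ 2
      + T.S u * (Complex.normSq v + dot w a) + 2 * deriv T.P u * (T.F w * θ) ^ 2) * w.re := by
    have := key 1
    simpa [dot] using this
  have him : a.im = (deriv T.S u * (dot w v) ^ 2
      + T.S u * (Complex.normSq v + dot w a) + 2 * deriv T.P u * (T.F w * θ) ^ 2) * w.im := by
    have := key Complex.I
    simpa [dot] using this
  have hB : (deriv T.S u * (dot w v) ^ 2
      + T.S u * (Complex.normSq v + dot w a) + 2 * deriv T.P u * (T.F w * θ) ^ 2)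
        * (1 - T.S u * u) = deriv T.S u * (dot w v) ^ 2 + T.S u * Complex.normSq v
        + 2 * deriv T.P u * (T.F w * θ) ^ 2 := by
    linear_combination T.S u * hself
  apply Complex.ext
  · simp only [Complex.smul_re, smul_eq_mul]
    rw [hre, ← mul_assoc, mul_comm (1 - T.S u * u), hB]
  · simp only [Complex.smul_im, smul_eq_mul]
    rw [him, ← mul_assoc, mul_comm (1 - T.S u * u), hB]

end Pool.Agent.Helper79.NC
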